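import Pool.Agent.Helper51.DW.Inst

set_option autoImplicit false

namespace Pool.Agent.Results.MP_09ef41_lc.CrossingFreeReduction

open Pool.Agent.Helper51.DW

/-- There is a polynomial-time computable map `f` (indices in unary) to instances of the
directional walk problem all of whose labels are `right`, which reduces simple stretchability to
the crossing-free directional walk problem, and at the same time to the directional walk
problem. -/
theorem result : ∃ f : List (List (List Bool)) → List (List Bool × List Bool) × List Bool,
    N68a2faeb.IsPolyTime f ∧ (∀ x, IsInstance (f x).1 (f x).2 ∧ ∀ b ∈ (f x).2, b = false) ∧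
    ∀ x, (x.map (List.map List.length) ∈ SimpleStretchability ↔
        f x ∈ CrossingFreeDirectionalWalk (List Bool × List Bool)) ∧
      (x.map (List.map List.length) ∈ SimpleStretchability ↔
        f x ∈ DirectionalWalk (List Bool × List Bool)) := main'

end Pool.Agent.Results.MP_09ef41_lc.CrossingFreeReduction
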